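import Pool.Agent.P.MP_fe901c_an.CardC

set_option autoImplicit false

namespace Pool.Agent.Results.MP_fe901c_an.NormableCard

/-- Every normable prime quotient of `C(Ω)` has the cardinality of the continuum. -/
theorem result :
    ∀ (Ω : Type) [TopologicalSpace Ω] [CompactSpace Ω] [T2Space Ω] (P : Ideal C(Ω, ℂ)),
      P.IsPrime → Nonempty (AlgebraNorm ℂ (C(Ω, ℂ) ⧸ P)) →
      Cardinal.mk (C(Ω, ℂ) ⧸ P) = Cardinal.continuum :=
  fun _ _ _ _ _ hP ⟨N⟩ => Pool.Agent.P.MP_fe901c_an.Card.card_eq hP N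

end Pool.Agent.Results.MP_fe901c_an.NormableCard
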