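import Pool.Agent.K.MP_fe901c_an.C0
import Pool.Agent.P.MP_fe901c_an.ArchEq

open Pool.Agent.P.MP_fe901c_an Cardinal

/-- Under (two instances of) GCH there is a non-maximal prime ideal `P` of some `C(Ω)` with
`|A_P| = ℵ₂`, `|Γ_P| = ℵ₁` and `A_P` not normable. -/
theorem Pool.Agent.Results.MP_fe901c_an.NotNormable.result
    (h₀ : (2 : Cardinal.{0}) ^ aleph 0 = aleph 1) (h₁ : (2 : Cardinal.{0}) ^ aleph 1 = aleph 2) :
    ∃ (Ω : Type) (_ : TopologicalSpace Ω) (_ : CompactSpace Ω) (_ : T2Space Ω) (_ : Nonempty Ω)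
      (P : Ideal C(Ω, ℂ)), P.IsPrime ∧ ¬ P.IsMaximal ∧ Cardinal.mk (C(Ω, ℂ) ⧸ P) = aleph 2 ∧
      Cardinal.mk (Quot (Arch P)) = aleph 1 ∧ IsEmpty (AlgebraNorm ℂ (C(Ω, ℂ) ⧸ P)) :=
  h₁ ▸ main h₀

namespace Pool.Agent.Results.MP_fe901c_an.NotNormable

/-- Prime ideals are absolutely convex. -/
theorem convex {Ω : Type} [TopologicalSpace Ω] (P : Ideal C(Ω, ℂ)) (hP : P.IsPrime)
    (g h : C(Ω, ℂ)) (hle : ∀ x, ‖g x‖ ≤ ‖h x‖) (hh : h ∈ P) : g ∈ P :=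
  AE.conv hP hle hh

/-- `LeMod` totally orders the real-valued functions modulo `P`. -/
theorem order {Ω : Type} [TopologicalSpace Ω] (P : Ideal C(Ω, ℂ)) (hP : P.IsPrime)
    (u v w : C(Ω, ℂ)) (hu : ∀ x, ∃ r : ℝ, u x = r) (hv : ∀ x, ∃ r : ℝ, v x = r)
    (hw : ∀ x, ∃ r : ℝ, w x = r) :
    (LeMod P u v ∨ LeMod P v u) ∧ (LeMod P u v → LeMod P v w → LeMod P u w) ∧
      (LeMod P u v → LeMod P v u → u - v ∈ P) ∧
      ∀ u' v' : C(Ω, ℂ), u - u' ∈ P → v - v' ∈ P → LeMod P u v → LeMod P u' v' :=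
  ⟨AE.le_total hP hu hv, AE.le_trans hP hu hv hw, AE.le_antisymm hP,
    fun _ _ h1 h2 => AE.le_congr hP h1 h2⟩

/-- `Arch` does not depend on the representatives, and `Quot (Arch P)` is the set of its classes. -/
theorem classes {Ω : Type} [TopologicalSpace Ω] (P : Ideal C(Ω, ℂ)) (hP : P.IsPrime)
    (a b : {a : C(Ω, ℂ) ⧸ P // a ≠ 0}) :
    (Quot.mk (Arch P) a = Quot.mk (Arch P) b ↔ Arch P a b) ∧
      (Arch P a b ↔ ∀ f g : C(Ω, ℂ), Ideal.Quotient.mk P f = a.1 → Ideal.Quotient.mk P g = b.1 →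
        ∃ n : ℕ, LeMod P (modulus f) (n • modulus g) ∧ LeMod P (modulus g) (n • modulus f)) :=
  ⟨AE.quot_iff hP a b, AE.arch_iff hP a b⟩

end Pool.Agent.Results.MP_fe901c_an.NotNormable
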